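import Pool.Agent.W164.MO.QFin

/-!
# MP_768c9c_nt: the Kahane-Saias question and the zeros of zeta off the critical line
-/

set_option autoImplicit false

namespace Pool.Agent.Results.MP_768c9c_nt.QuasiRiemann

open Filter Topology Finset

/-- `f` (only its values at `n ≥ 1` matter) is a CMO function: completely multiplicative, with
`∑ f(n)` convergent to `0` -/
structure IsCMO (f : ℕ → ℂ) : Prop where
  one : f 1 = 1
  mul : ∀ m n : ℕ, 0 < m → 0 < n → f (m * n) = f m * f n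
  sum_zero : Tendsto (fun N : ℕ => ∑ n ∈ Icc 1 N, f n) atTop (𝓝 0)

/-- the partial sum `S_f(x) = ∑_{n ≤ x} f(n)` -/
noncomputable def partialSum (f : ℕ → ℂ) (x : ℝ) : ℂ := ∑ n ∈ Icc 1 ⌊x⌋₊, f n

/-- the assertion of Q1: `S_f(x) = Ω(x^(-1/2))` for every CMO function `f` -/
def KahaneSaias : Prop := ∀ f : ℕ → ℂ, IsCMO f →
  ∃ c : ℝ, 0 < c ∧ ∀ M : ℕ, ∃ N : ℕ, M ≤ N ∧ 0 < N ∧ c / Real.sqrt (N : ℝ) ≤ ‖partialSum f N‖

/-- There is an absolute constant `η₀ > 0` such that: if `ζ` has no zero with real part larger than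
`1/2 + η₀` (in particular if the Riemann hypothesis holds), then there are a CMO function `f` and
`η > 0` with `S_f(x) = O(x^(-1/2-η))`.  Hence, if the assertion of Q1 holds, then `ζ` has a zero
with real part in `(1/2 + η₀, 1)`. -/
theorem result : ∃ η₀ : ℝ, 0 < η₀ ∧
    ((∀ s : ℂ, riemannZeta s = 0 → s.re ≤ 1 / 2 + η₀) →
      ∃ f : ℕ → ℂ, IsCMO f ∧ ∃ η C : ℝ, 0 < η ∧ 0 < C ∧
        ∀ x : ℝ, 1 ≤ x → ‖partialSum f x‖ ≤ C * x ^ (-(1 / 2 : ℝ) - η)) ∧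
    (KahaneSaias → ∃ ρ : ℂ, riemannZeta ρ = 0 ∧ 1 / 2 + η₀ < ρ.re ∧ ρ.re < 1) := by
  obtain ⟨η₀, hη₀, hmain⟩ := Pool.Agent.W164.MO.Q.main
  have key : (∀ s : ℂ, riemannZeta s = 0 → s.re ≤ 1 / 2 + η₀) →
      ∃ f : ℕ → ℂ, IsCMO f ∧ ∃ η C : ℝ, 0 < η ∧ 0 < C ∧
        ∀ x : ℝ, 1 ≤ x → ‖partialSum f x‖ ≤ C * x ^ (-(1 / 2 : ℝ) - η) := by
    intro hz
    obtain ⟨η', g, hη', h0, h1, hmul, -, C, hC⟩ := hmain hz
    -- a smaller exponent
    set η : ℝ := min η' (1 / 2) with hη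
    have hη0 : 0 < η := lt_min hη' (by norm_num)
    have hη1 : η ≤ 1 / 2 := min_le_right _ _
    have hηη' : η ≤ η' := min_le_left _ _
    have hC1 : 1 ≤ C := by
      have := hC 1 (le_refl 1)
      simp [h1] at this
      exact this
    have hsum : ∀ n : ℕ, ∑ k ∈ Icc 1 n, ((g k : ℝ) : ℂ) = ((∑ k ∈ Icc 1 n, g k : ℝ) : ℂ) := by
      intro n
      push_cast
      rfl
    have hbd : ∀ n : ℕ, 1 ≤ n → ‖∑ k ∈ Icc 1 n, ((g k : ℝ) : ℂ)‖ ≤ C * (n : ℝ) ^ (-(1 / 2 : ℝ) - η) := by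
      intro n hn
      rw [hsum n, Complex.norm_real, Real.norm_eq_abs]
      refine (hC n hn).trans ?_
      apply mul_le_mul_of_nonneg_left _ (by linarith)
      exact Real.rpow_le_rpow_of_exponent_le (by exact_mod_cast hn) (by linarith)
    have hx : ∀ x : ℝ, 1 ≤ x → ‖partialSum (fun n => ((g n : ℝ) : ℂ)) x‖ ≤
        2 * C * x ^ (-(1 / 2 : ℝ) - η) := by
      intro x hx
      have hfl : 1 ≤ ⌊x⌋₊ := Nat.le_floor (by exact_mod_cast hx)
      refine (hbd _ hfl).trans ?_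
      have h2 : x / 2 ≤ (⌊x⌋₊ : ℝ) := by
        have h3 := Nat.lt_floor_add_one x
        have h4 : (1 : ℝ) ≤ (⌊x⌋₊ : ℝ) := by exact_mod_cast hfl
        linarith
      have h5 : (⌊x⌋₊ : ℝ) ^ (-(1 / 2 : ℝ) - η) ≤ (x / 2) ^ (-(1 / 2 : ℝ) - η) :=
        Real.rpow_le_rpow_of_nonpos (by linarith) h2 (by linarith)
      have h6 : (x / 2) ^ (-(1 / 2 : ℝ) - η) = x ^ (-(1 / 2 : ℝ) - η) * (2 : ℝ) ^ (1 / 2 + η) := by
        rw [Real.div_rpow (by linarith) (by norm_num), div_eq_mul_inv,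
          ← Real.rpow_neg (by norm_num : (0 : ℝ) ≤ 2)]
        congr 2
        ring
      have h7 : (2 : ℝ) ^ (1 / 2 + η) ≤ 2 := by
        calc (2 : ℝ) ^ (1 / 2 + η) ≤ (2 : ℝ) ^ (1 : ℝ) :=
              Real.rpow_le_rpow_of_exponent_le (by norm_num) (by linarith)
          _ = 2 := Real.rpow_one 2
      have h8 : 0 ≤ x ^ (-(1 / 2 : ℝ) - η) := Real.rpow_nonneg (by linarith) _
      calc C * (⌊x⌋₊ : ℝ) ^ (-(1 / 2 : ℝ) - η) ≤ C * (x ^ (-(1 / 2 : ℝ) - η) * 2) := by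
            apply mul_le_mul_of_nonneg_left _ (by linarith)
            refine h5.trans ?_
            rw [h6]
            exact mul_le_mul_of_nonneg_left h7 h8
        _ = _ := by ring
    refine ⟨fun n => ((g n : ℝ) : ℂ), ⟨?_, ?_, ?_⟩, η, 2 * C, hη0, by linarith, hx⟩
    · show ((g 1 : ℝ) : ℂ) = 1
      rw [h1, Complex.ofReal_one]
    · intro m n _ _
      show ((g (m * n) : ℝ) : ℂ) = ((g m : ℝ) : ℂ) * ((g n : ℝ) : ℂ)
      rw [hmul, Complex.ofReal_mul]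
    · rw [tendsto_zero_iff_norm_tendsto_zero]
      have hlim : Tendsto (fun N : ℕ => C * (N : ℝ) ^ (-(1 / 2 : ℝ) - η)) atTop (𝓝 0) := by
        have h9 : Tendsto (fun x : ℝ => x ^ (-(1 / 2 + η))) atTop (𝓝 0) :=
          tendsto_rpow_neg_atTop (by linarith)
        have h10 := (h9.comp tendsto_natCast_atTop_atTop).const_mul C
        rw [mul_zero] at h10
        refine h10.congr fun N => ?_
        show C * (N : ℝ) ^ (-(1 / 2 + η)) = C * (N : ℝ) ^ (-(1 / 2 : ℝ) - η)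
        congr 2
        ring
      refine squeeze_zero' (Eventually.of_forall fun N => norm_nonneg _) ?_ hlim
      filter_upwards [eventually_ge_atTop 1] with N hN
      exact hbd N hN
  refine ⟨η₀, hη₀, key, ?_⟩
  intro hKS
  by_contra hcon
  push Not at hcon
  obtain ⟨f, hf, η, C, hη, hC, hx⟩ := key (by
    intro s hs
    by_contra hlt
    push Not at hlt
    have h1 := hcon s hs hlt
    exact riemannZeta_ne_zero_of_one_le_re h1 hs)
  obtain ⟨c, hc, hN⟩ := hKS f hf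
  -- choose N large with C N^(-η) < c
  have hlim : Tendsto (fun N : ℕ => C * (N : ℝ) ^ (-η)) atTop (𝓝 0) := by
    have h9 : Tendsto (fun x : ℝ => x ^ (-η)) atTop (𝓝 0) := tendsto_rpow_neg_atTop hη
    have h10 := (h9.comp tendsto_natCast_atTop_atTop).const_mul C
    rw [mul_zero] at h10
    exact h10
  obtain ⟨M, hM⟩ := eventually_atTop.1 (hlim.eventually (gt_mem_nhds hc))
  obtain ⟨N, hMN, hN0, hle⟩ := hN M
  have h1 := hM N hMN
  have hN1 : (1 : ℝ) ≤ N := by exact_mod_cast hN0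
  have hNp : (0 : ℝ) < N := by linarith
  have h2 := hx N hN1
  have h3 : (N : ℝ) ^ (-(1 / 2 : ℝ) - η) = (N : ℝ) ^ (-η) / Real.sqrt N := by
    rw [Real.sqrt_eq_rpow, ← Real.rpow_sub hNp]
    congr 1
    ring
  rw [h3] at h2
  have hs : 0 < Real.sqrt N := Real.sqrt_pos.2 hNp
  have h4 : c / Real.sqrt N ≤ C * (N : ℝ) ^ (-η) / Real.sqrt N := by
    rw [mul_div_assoc]
    exact hle.trans h2
  rw [div_le_div_iff_of_pos_right hs] at h4
  linarith

end Pool.Agent.Results.MP_768c9c_nt.QuasiRiemann
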